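import Pool.Agent.L5helper98.NG.Defs

set_option autoImplicit false

open MeasureTheory ProbabilityTheory Filter Topology Set
open scoped ENNReal
open Pool.Agent.L5helper98.NG

namespace Pool.Agent.L5helper30.NG

theorem meas_joint {d : ℕ} {Ω : Type} [MeasurableSpace Ω] (X : Ω → (Fin d → ℝ) → ℝ)
    (h1 : ∀ x, Measurable (fun o => X o x)) (h2 : ∀ o, Continuous (X o)) :
    Measurable (fun q : (Fin d → ℝ) × Ω => X q.2 q.1) := by
  have := measurable_uncurry_of_continuous_of_measurable (u := fun (x : Fin d → ℝ) (o : Ω) => X o x)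
    (fun o => h2 o) h1
  exact this

theorem meas_Cv {d : ℕ} {Ω : Type} [MeasurableSpace Ω] (P : Measure Ω) [IsProbabilityMeasure P]
    (X : ℕ → Ω → (Fin d → ℝ) → ℝ) (F : Fields P X) (n : ℕ) :
    Measurable (fun q : (Fin d → ℝ) × (Fin d → ℝ) => Cv P X n q.1 q.2) := by
  unfold Cv
  refine Finset.measurable_fun_sum _ fun k _ => ?_
  have hj := meas_joint (X k) (F.meas k) (F.cont k)
  have h : Measurable (fun q : ((Fin d → ℝ) × (Fin d → ℝ)) × Ω => X k q.2 q.1.1 * X k q.2 q.1.2) := by
    refine Measurable.mul ?_ ?_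
    · exact hj.comp (Measurable.prodMk (measurable_fst.comp measurable_fst) measurable_snd)
    · exact hj.comp (Measurable.prodMk (measurable_snd.comp measurable_fst) measurable_snd)
  exact (h.stronglyMeasurable.integral_prod_right').measurable

/-- two sided bound of the covariance on a small cube -/
theorem cv_bd {d : ℕ} {Ω : Type} [MeasurableSpace Ω] (P : Measure Ω) [IsProbabilityMeasure P]
    (X : ℕ → Ω → (Fin d → ℝ) → ℝ) (F : Fields P X) :
    ∃ δ C : ℝ, 0 < δ ∧ 0 ≤ C ∧ ∀ n : ℕ, ∀ x ∈ cube d, ∀ y ∈ cube d, ∀ r : ℝ, 0 < r → r ≤ δ →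
      ‖x - y‖ ≤ r → Cv P X n 0 0 ≤ Real.log (1 / r) → |Cv P X n x y - Cv P X n 0 0| ≤ C := by
  obtain ⟨C1, h1⟩ := F.cov_diag
  obtain ⟨δ, C2, hδ, h2⟩ := F.cov
  refine ⟨δ, max 0 (max C1 C2), hδ, le_max_left _ _, ?_⟩
  intro n x hx y hy r hr hrδ hxy ht
  by_cases he : x = y
  · subst he
    exact (h1 n x hx).trans ((le_max_left _ _).trans (le_max_right _ _))
  · have h := h2 n x hx y hy he (hxy.trans hrδ)
    have hpos : 0 < ‖x - y‖ := norm_pos_iff.2 (sub_ne_zero.2 he)
    have hl : Cv P X n 0 0 ≤ Real.log (1 / ‖x - y‖) := by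
      refine ht.trans (Real.log_le_log (by positivity) ?_)
      exact one_div_le_one_div_of_le hpos hxy
    rw [min_eq_right hl] at h
    exact h.trans ((le_max_right _ _).trans (le_max_right _ _))

theorem dbl {E : Type} [MeasurableSpace E] (ρ : Measure E) [IsFiniteMeasure ρ] (A : Set E)
    (hA : ∀ᵐ x ∂ρ, x ∈ A) (f : E × E → ℝ) (hf : Measurable f) (t C : ℝ)
    (h : ∀ x ∈ A, ∀ y ∈ A, |f (x, y) - t| ≤ C) :
    (ρ.real univ) ^ 2 * (t - C) ≤ ∫ x, ∫ y, f (x, y) ∂ρ ∂ρ := by
  have hI : ∀ x ∈ A, Integrable (fun y => f (x, y)) ρ := by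
    intro x hx
    refine Integrable.of_bound (C := |t| + C) ?_ ?_
    · exact (hf.comp (measurable_const.prodMk measurable_id)).aestronglyMeasurable
    · filter_upwards [hA] with y hy
      have := h x hx y hy
      rw [Real.norm_eq_abs]
      have h3 : |f (x, y)| ≤ |f (x, y) - t| + |t| := by
        have := abs_add_le (f (x, y) - t) t
        simpa using this
      linarith
  have hlow : ∀ x ∈ A, ρ.real univ * (t - C) ≤ ∫ y, f (x, y) ∂ρ := by
    intro x hx
    have h1 : ∫ y, (t - C) ∂ρ ≤ ∫ y, f (x, y) ∂ρ := by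
      refine integral_mono_ae (integrable_const _) (hI x hx) ?_
      filter_upwards [hA] with y hy
      have := abs_le.1 (h x hx y hy)
      linarith [this.1]
    rwa [integral_const, smul_eq_mul] at h1
  have hup : ∀ x ∈ A, |∫ y, f (x, y) ∂ρ| ≤ ρ.real univ * (|t| + C) := by
    intro x hx
    have h1 : ‖∫ y, f (x, y) ∂ρ‖ ≤ (|t| + C) * ρ.real univ := by
      refine norm_integral_le_of_norm_le_const ?_
      filter_upwards [hA] with y hy
      have := h x hx y hy
      rw [Real.norm_eq_abs]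
      have h3 : |f (x, y)| ≤ |f (x, y) - t| + |t| := by
        have := abs_add_le (f (x, y) - t) t
        simpa using this
      linarith
    rw [Real.norm_eq_abs] at h1
    linarith
  have hJ : Integrable (fun x => ∫ y, f (x, y) ∂ρ) ρ := by
    refine Integrable.of_bound (C := ρ.real univ * (|t| + C)) ?_ ?_
    · exact (hf.stronglyMeasurable.integral_prod_right').aestronglyMeasurable
    · filter_upwards [hA] with x hx
      rw [Real.norm_eq_abs]
      exact hup x hx
  have h1 : ∫ x, ρ.real univ * (t - C) ∂ρ ≤ ∫ x, ∫ y, f (x, y) ∂ρ ∂ρ := by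
    refine integral_mono_ae (integrable_const _) hJ ?_
    filter_upwards [hA] with x hx
    exact hlow x hx
  rw [integral_const, smul_eq_mul] at h1
  calc (ρ.real univ) ^ 2 * (t - C) = ρ.real univ * (ρ.real univ * (t - C)) := by ring
    _ ≤ _ := h1

theorem QB_holds (hMG : St_MG) (hZB : St_ZB) (hMAS : St_MAS) : St_QB := by
  intro d Ω _ P _ X hd F β p hβ hp
  obtain ⟨δ, C3, hδ, hC3, hcv⟩ := cv_bd P X F
  obtain ⟨C1, hC1, hmg⟩ := hMG d Ω P X F (p * β) (by positivity)
  obtain ⟨hZm, C2, hC2, hzb⟩ := hZB d Ω P X F β hβ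
  refine ⟨δ, p * C2 + p ^ 2 * β ^ 2 * C3 / 2 + C1, hδ, ?_⟩
  intro n a r hr hrδ ht hA
  set A : Set (Fin d → ℝ) := Icc a (a + fun _ => r) with hAdef
  have hAm : MeasurableSet A := measurableSet_Icc
  have hvol : volume A = ENNReal.ofReal (r ^ d) := by
    rw [hAdef, Real.volume_Icc_pi]
    simp only [Pi.add_apply, add_sub_cancel_left, Finset.prod_const, Finset.card_univ,
      Fintype.card_fin]
    rw [ENNReal.ofReal_pow hr.le]
  have hrd : 0 < r ^ d := by positivity
  set t := Cv P X n 0 0 with htdef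
  set ρ : Measure (Fin d → ℝ) := ENNReal.ofReal (p * β / r ^ d) • volume.restrict A with hρ
  have hρu : ρ univ = ENNReal.ofReal (p * β) := by
    rw [hρ, Measure.smul_apply, Measure.restrict_apply MeasurableSet.univ, univ_inter, hvol,
      smul_eq_mul, ← ENNReal.ofReal_mul (by positivity)]
    congr 1
    field_simp
  haveI : IsFiniteMeasure ρ := ⟨by rw [hρu]; exact ENNReal.ofReal_lt_top⟩
  have hρr : ρ.real univ = p * β := by
    rw [Measure.real, hρu, ENNReal.toReal_ofReal (by positivity)]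
  have hρA : ∀ᵐ x ∂ρ, x ∈ A := by
    rw [hρ]
    exact Measure.ae_smul_measure (ae_restrict_mem hAm) _
  have hρc : ρ (cube d)ᶜ = 0 := by
    have h1 : ∀ᵐ x ∂ρ, x ∈ cube d := hρA.mono fun x hx => hA hx
    exact h1
  obtain ⟨hint, hlo, _⟩ := hmg n ρ hρc hρu.le
  have hnorm : ∀ x ∈ A, ∀ y ∈ A, ‖x - y‖ ≤ r := by
    intro x hx y hy
    rw [pi_norm_le_iff_of_nonneg hr.le]
    intro i
    rw [Real.norm_eq_abs, Pi.sub_apply, abs_le]
    have h1 := hx.1 i
    have h2 := hx.2 i
    have h3 := hy.1 i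
    have h4 := hy.2 i
    simp only [Pi.add_apply] at h2 h4
    constructor <;> linarith
  have hdbl := dbl ρ A hρA (fun q => Cv P X n q.1 q.2) (meas_Cv P X F n) t C3
    (fun x hx y hy => hcv n x (hA hx) y (hA hy) r hr hrδ (hnorm x hx y hy) ht)
  rw [hρr] at hdbl
  simp only at hdbl
  obtain ⟨hmm, hm0, hmi, _⟩ := hMAS d Ω P X F β hβ A hAm hA n
  -- pointwise bound
  have hcontS : ∀ o, Continuous (S X n o) := by
    intro o
    unfold S
    exact continuous_finset_sum _ fun k _ => F.cont k o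
  have hAc : IsCompact A := isCompact_Icc
  have hpt : ∀ o, r ^ (d * p) * Real.exp (-(p * (β ^ 2 * t / 2)) - p * C2) *
      Real.exp (∫ x, S X n o x ∂ρ) ≤ mass P X β A n o ^ p := by
    intro o
    have hSi : IntegrableOn (fun x => S X n o x) A := (hcontS o).continuousOn.integrableOn_compact hAc
    have hEi : IntegrableOn (fun x => Real.exp (β * S X n o x)) A :=
      (Real.continuous_exp.comp (continuous_const.mul (hcontS o))).continuousOn.integrableOn_compact hAc
    have hI1 : ∫ x, S X n o x ∂ρ = (p * β / r ^ d) * ∫ x in A, S X n o x := by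
      rw [hρ, integral_smul_measure, ENNReal.toReal_ofReal (by positivity), smul_eq_mul]
    have hb : Real.exp (-(β ^ 2 * t / 2) - C2) * ∫ x in A, Real.exp (β * S X n o x) ≤
        mass P X β A n o := by
      unfold mass
      rw [← integral_const_mul]
      refine setIntegral_mono_on (hEi.const_mul _) (hmi o) hAm ?_
      intro x hx
      obtain ⟨_, hz1, hz2⟩ := hzb n x (hA hx)
      have hzpos : 0 < Zf P X β n x := lt_of_lt_of_le (Real.exp_pos _) hz1
      rw [mul_comm]
      have hq : Real.exp (-(β ^ 2 * t / 2) - C2) ≤ (Zf P X β n x)⁻¹ := by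
        rw [show -(β ^ 2 * t / 2) - C2 = -(β ^ 2 * t / 2 + C2) by ring, Real.exp_neg]
        exact inv_anti₀ hzpos hz2
      have hq2 := mul_le_mul_of_nonneg_left hq (Real.exp_pos (β * S X n o x)).le
      rw [← div_eq_mul_inv] at hq2
      exact hq2
    haveI : IsFiniteMeasure (volume.restrict A) := ⟨by
      rw [Measure.restrict_apply MeasurableSet.univ, univ_inter, hvol]; exact ENNReal.ofReal_lt_top⟩
    haveI : NeZero (volume.restrict A) := ⟨by
      intro h0
      have : volume A = 0 := by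
        rw [← Measure.restrict_apply_univ (s := A), h0]; simp
      rw [hvol, ENNReal.ofReal_eq_zero] at this
      linarith⟩
    have hj : Real.exp (⨍ x in A, β * S X n o x) ≤ ⨍ x in A, Real.exp (β * S X n o x) := by
      refine convexOn_exp.map_average_le Real.continuous_exp.continuousOn isClosed_univ
        (by simp) ?_ ?_
      · exact hSi.const_mul _
      · exact hEi
    have hvr : (volume.restrict A).real univ = r ^ d := by
      rw [Measure.real, Measure.restrict_apply MeasurableSet.univ, univ_inter, hvol,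
        ENNReal.toReal_ofReal hrd.le]
    rw [average_eq, average_eq, hvr, smul_eq_mul, smul_eq_mul, integral_const_mul] at hj
    have hj2 : r ^ d * Real.exp ((r ^ d)⁻¹ * (β * ∫ x in A, S X n o x)) ≤
        ∫ x in A, Real.exp (β * S X n o x) := by
      have := mul_le_mul_of_nonneg_left hj hrd.le
      have e9 : r ^ d * ((r ^ d)⁻¹ * ∫ x in A, Real.exp (β * S X n o x)) =
          ∫ x in A, Real.exp (β * S X n o x) := by
        field_simp
      rw [e9] at this
      exact this
    have hb2 : Real.exp (-(β ^ 2 * t / 2) - C2) *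
        (r ^ d * Real.exp ((r ^ d)⁻¹ * (β * ∫ x in A, S X n o x))) ≤ mass P X β A n o :=
      (mul_le_mul_of_nonneg_left hj2 (Real.exp_pos _).le).trans hb
    have hp0 : 0 ≤ p := by linarith
    have h5 := Real.rpow_le_rpow (by positivity) hb2 hp0
    refine le_trans (le_of_eq ?_) h5
    rw [Real.mul_rpow (by positivity) (by positivity), Real.mul_rpow (by positivity) (by positivity),
      ← Real.exp_mul, ← Real.exp_mul, hI1, ← Real.rpow_natCast r d, ← Real.rpow_mul hr.le]
    have e1 : (-(β ^ 2 * t / 2) - C2) * p = -(p * (β ^ 2 * t / 2)) - p * C2 := by ring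
    have e2 : (r ^ (d : ℝ))⁻¹ * (β * ∫ x in A, S X n o x) * p =
        p * β / r ^ (d : ℝ) * ∫ x in A, S X n o x := by
      rw [div_eq_mul_inv]; ring
    rw [e1, e2]
    ring
  have hK : 0 ≤ r ^ (d * p) * Real.exp (-(p * (β ^ 2 * t / 2)) - p * C2) := by positivity
  calc ENNReal.ofReal (r ^ (d * p) * Real.exp (β ^ 2 * (p ^ 2 - p) / 2 * t -
        (p * C2 + p ^ 2 * β ^ 2 * C3 / 2 + C1)))
      ≤ ENNReal.ofReal (∫ o, r ^ (d * p) * Real.exp (-(p * (β ^ 2 * t / 2)) - p * C2) *
        Real.exp (∫ x, S X n o x ∂ρ) ∂P) := by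
        refine ENNReal.ofReal_le_ofReal ?_
        rw [integral_const_mul]
        have h7 : Real.exp ((1 / 2) * ((p * β) ^ 2 * (t - C3)) - C1) ≤
            ∫ o, Real.exp (∫ x, S X n o x ∂ρ) ∂P :=
          (Real.exp_le_exp.2 (by linarith)).trans hlo
        refine le_trans (le_of_eq ?_) (mul_le_mul_of_nonneg_left h7 hK)
        have e8 : Real.exp (β ^ 2 * (p ^ 2 - p) / 2 * t -
            (p * C2 + p ^ 2 * β ^ 2 * C3 / 2 + C1)) =
            Real.exp (-(p * (β ^ 2 * t / 2)) - p * C2) *
            Real.exp ((1 / 2) * ((p * β) ^ 2 * (t - C3)) - C1) := by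
          rw [← Real.exp_add]
          congr 1
          ring
        rw [e8]
        ring
    _ = ∫⁻ o, ENNReal.ofReal (r ^ (d * p) * Real.exp (-(p * (β ^ 2 * t / 2)) - p * C2) *
        Real.exp (∫ x, S X n o x ∂ρ)) ∂P := by
        refine ofReal_integral_eq_lintegral_ofReal (hint.const_mul _) ?_
        exact Filter.Eventually.of_forall fun o => by positivity
    _ ≤ ∫⁻ o, ENNReal.ofReal (mass P X β A n o ^ p) ∂P :=
        lintegral_mono fun o => ENNReal.ofReal_le_ofReal (hpt o)

end Pool.Agent.L5helper30.NG
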